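import Pool.Agent.Helper51.CX.St

set_option autoImplicit false

namespace Pool.Agent.Helper22.CX

open Pool.Agent.Helper51.CX

theorem hB2 : StTRA → StBDP → StB2 := by
  intro hTRA hBDP K _ _ _ j z hj1 hj2 hF hL hpp k hk hkj hLk
  by_contra hne
  rw [not_or] at hne
  have h1 := hTRA K j hj1 hj2 k (by omega) hkj hne.1 hne.2 z (Or.inl ⟨hk, by rw [hLk, hL]⟩)
  obtain ⟨b1, _, b3, _, _, b6, b7, _, b9, _, _⟩ := hBDP K j hj1 hj2 z hF hL
  have h5 : z 5 ≤ 2 := by
    have := (abs_le.1 (show |z 5 - 1| ≤ 1 by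
      have h0 : 0 ≤ |z 5 - 1| := abs_nonneg _
      linarith)).2
    linarith
  have hP : 1895 ≤ pp j z := by linarith
  have hP0 : |pp j z| = pp j z := abs_of_nonneg (by linarith)
  rw [hP0] at h1
  have hE := (abs_le.1 b6).1
  linarith

end Pool.Agent.Helper22.CX
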